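import Mathlib

namespace Pool.Agent.Results.MP_3fd052_nt.Counter

/-- `b` is a `K`-sequence for `K = (k n)`: constant on blocks, and
`b (k n) - b (k (n-1)) = b n` for `n ≥ 1`. -/
def IsKSeq (k : ℕ → ℕ) (b : ℕ → ℤ) : Prop :=
  (∀ n m, k n ≤ m → m < k (n + 1) → b m = b (k n)) ∧ ∀ n, b (k (n + 1)) - b (k n) = b (n + 1)

/-- The lower degree of `K`, in `ℕ∞` (the infimum of the empty set is `⊤`). -/
noncomputable def lowerDeg (k : ℕ → ℕ) : ℕ∞ :=
  sInf {d : ℕ∞ | ∃ e : ℕ, d = e ∧ 1 ≤ e ∧ {n : ℕ | k (n + 1) - k n = e}.Infinite}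

def Safe (x a : ZMod 29) (m : ℕ) : Prop := ∀ t < m, x + ((t + 1 : ℕ) : ZMod 29) * a ≠ 0

instance (x a : ZMod 29) (m : ℕ) : Decidable (Safe x a m) := by unfold Safe; infer_instance

lemma fin_check : ∀ x a a' : ZMod 29, a ≠ 0 → a' ≠ 0 → a ≠ a' → Safe x a 6 →
    ∃ g < 10, 3 ≤ g ∧ Safe x a g ∧ Safe (x + (g : ZMod 29) * a) a' 6 := by
  decide +kernel

open Classical in
noncomputable def G (x a a' : ZMod 29) : ℕ :=
  if h : ∃ g < 10, 3 ≤ g ∧ Safe x a g ∧ Safe (x + (g : ZMod 29) * a) a' 6 then h.choose else 3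

lemma G_ge (x a a' : ZMod 29) : 3 ≤ G x a a' ∧ G x a a' ≤ 9 := by
  unfold G
  split_ifs with h
  · have := h.choose_spec
    omega
  · omega

lemma G_spec {x a a' : ZMod 29} (h1 : a ≠ 0) (h2 : a' ≠ 0) (h3 : a ≠ a') (h4 : Safe x a 6) :
    Safe x a (G x a a') ∧ Safe (x + (G x a a' : ZMod 29) * a) a' 6 := by
  have h := fin_check x a a' h1 h2 h3 h4
  unfold G
  rw [dif_pos h]
  exact h.choose_spec.2.2

noncomputable def st : ℕ → ℕ × (ℕ → ℤ)
  | 0 => (3, fun n => n + 1)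
  | j + 1 =>
    ((st j).1 + G ((st j).2 ((st j).1 - 1)) ((st j).2 (j + 1)) ((st j).2 (j + 2)),
      fun n => if n < (st j).1 then (st j).2 n
        else (st j).2 ((st j).1 - 1) + ((n : ℤ) - (st j).1 + 1) * (st j).2 (j + 1))

noncomputable def kk : ℕ → ℕ
  | 0 => 0
  | j + 1 => (st j).1

noncomputable def cc (n : ℕ) : ℤ := (st n).2 n

lemma gap (j : ℕ) : kk j + 3 ≤ kk (j + 1) ∧ kk (j + 1) ≤ kk j + 9 := by
  rcases j with _ | j
  · simp [kk, st]
  · have := G_ge ((st j).2 ((st j).1 - 1)) ((st j).2 (j + 1)) ((st j).2 (j + 2))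
    simp only [kk, st]
    omega

lemma kk_ge (j : ℕ) : 3 * j ≤ kk j := by
  induction j with
  | zero => simp
  | succ j ih => have := gap j; omega

lemma kk_mono : StrictMono kk := strictMono_nat_of_lt_succ fun j => by have := gap j; omega

lemma stab (j i n : ℕ) (hn : n < kk (j + 1)) : (st (j + i)).2 n = (st j).2 n := by
  induction i with
  | zero => rfl
  | succ i ih =>
    have : kk (j + 1) ≤ kk (j + i + 1) := kk_mono.monotone (by omega)
    have h2 : n < (st (j + i)).1 := lt_of_lt_of_le hn this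
    rw [← ih, ← add_assoc]
    simp [st, h2]

lemma cc_eq (j n : ℕ) (hn : n < kk (j + 1)) : (st j).2 n = cc n := by
  unfold cc
  rcases le_total j n with h | h
  · obtain ⟨i, rfl⟩ := Nat.exists_eq_add_of_le h
    exact (stab j i _ hn).symm
  · obtain ⟨i, rfl⟩ := Nat.exists_eq_add_of_le h
    exact stab n i n (by have := kk_ge (n + 1); omega)

lemma cc_block (j n : ℕ) (h1 : kk (j + 1) ≤ n + 1) (h2 : n < kk (j + 2)) :
    cc n = cc (kk (j + 1) - 1) + ((n : ℤ) - kk (j + 1) + 1) * cc (j + 1) := by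
  have h3 := kk_ge (j + 1)
  by_cases e : n < kk (j + 1)
  · have : n = kk (j + 1) - 1 := by omega
    have e2 : (n : ℤ) - kk (j + 1) + 1 = 0 := by omega
    rw [e2, ← this]; simp
  · rw [← cc_eq (j + 1) n h2, ← cc_eq j (kk (j + 1) - 1) (by omega), ← cc_eq j (j + 1) (by omega)]
    have e' : ¬ n < (st j).1 := e
    simp [st, e', kk]

lemma kk_succ (j : ℕ) : kk (j + 2) =
    kk (j + 1) + G (cc (kk (j + 1) - 1)) (cc (j + 1)) (cc (j + 2)) := by
  have h3 := kk_ge (j + 1)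
  rw [← cc_eq j (kk (j + 1) - 1) (by omega), ← cc_eq j (j + 1) (by omega),
    ← cc_eq j (j + 2) (by omega)]
  rfl

lemma cc_low (n : ℕ) (h : n < 3) : cc n = n + 1 := by
  rw [← cc_eq 0 n h]; rfl

lemma cc_rec (j n : ℕ) (h1 : kk j ≤ n + 1) (h2 : n + 1 < kk (j + 1)) :
    cc (n + 1) - cc n = cc j := by
  rcases j with _ | j
  · have : kk (0 + 1) = 3 := rfl
    rw [cc_low _ (by omega), cc_low _ (by omega), cc_low 0 (by omega)]
    push_cast; ring
  · rw [cc_block j (n + 1) (by omega) h2, cc_block j n h1 (Nat.lt_of_succ_lt h2)]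
    push_cast; ring

lemma ex_block (m : ℕ) : ∃ j, kk j ≤ m ∧ m < kk (j + 1) := by
  induction m with
  | zero => exact ⟨0, le_rfl, by have := gap 0; omega⟩
  | succ m ih =>
    obtain ⟨j, h1, h2⟩ := ih
    by_cases e : m + 1 < kk (j + 1)
    · exact ⟨j, by omega, e⟩
    · exact ⟨j + 1, by omega, by have := gap (j + 1); omega⟩

lemma block_uniq {i j m : ℕ} (h1 : kk i ≤ m) (h2 : m < kk (i + 1)) (h3 : kk j ≤ m)
    (h4 : m < kk (j + 1)) : i = j := by
  have a1 : i < j + 1 := kk_mono.lt_iff_lt.1 (by omega)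
  have a2 : j < i + 1 := kk_mono.lt_iff_lt.1 (by omega)
  omega

lemma inv (j : ℕ) : (∀ n < kk (j + 1), (cc n : ZMod 29) ≠ 0) ∧
    Safe (cc (kk (j + 1) - 1)) (cc (j + 1)) 6 := by
  induction j with
  | zero =>
    have : kk (0 + 1) = 3 := rfl
    rw [this]
    refine ⟨fun n hn => ?_, ?_⟩
    · rw [cc_low n hn]
      interval_cases n <;> decide
    · rw [cc_low _ (by omega), cc_low _ (by omega)]
      decide
  | succ j ih =>
    have h3 := kk_ge (j + 1)
    have hne : (cc (j + 1) : ZMod 29) ≠ (cc (j + 2) : ZMod 29) := by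
      obtain ⟨i, i1, i2⟩ := ex_block (j + 2)
      have := cc_rec i (j + 1) i1 i2
      have h4 := kk_ge i
      have h5 := ih.1 i (by omega)
      intro e
      apply h5
      rw [← this]
      push_cast
      rw [e, sub_self]
    obtain ⟨g1, g2⟩ := G_spec (ih.1 (j + 1) (by omega)) (ih.1 (j + 2) (by omega)) hne ih.2
    have hk := kk_succ j
    have hg := G_ge (cc (kk (j + 1) - 1)) (cc (j + 1)) (cc (j + 2))
    generalize G (cc (kk (j + 1) - 1)) (cc (j + 1)) (cc (j + 2)) = g at *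
    refine ⟨fun n hn => ?_, ?_⟩
    · by_cases e : n < kk (j + 1)
      · exact ih.1 n e
      · obtain ⟨t, rfl⟩ : ∃ t, n = kk (j + 1) + t := ⟨n - kk (j + 1), by omega⟩
        have hn' : kk (j + 1) + t < kk (j + 2) := hn
        have := g1 t (by omega)
        rw [cc_block j _ (by omega) hn]
        push_cast at this ⊢
        convert this using 3
        ring
    · have e : ((kk (j + 2) - 1 : ℕ) : ℤ) - kk (j + 1) + 1 = g := by omega
      rw [cc_block j (kk (j + 2) - 1) (by omega) (by omega), e]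
      push_cast
      exact g2

theorem result : ∃ (k : ℕ → ℕ) (b : ℕ → ℤ), k 0 = 0 ∧ StrictMono k ∧ 3 ≤ lowerDeg k ∧
    (∀ n, 3 ≤ k (n + 1) - k n ∧ k (n + 1) - k n ≤ 9) ∧ IsKSeq k b ∧
    ∀ n, ¬ (29 : ℤ) ∣ b n := by
  choose β h1 h2 using ex_block
  have hβ : ∀ n, β (kk n) = n := fun n =>
    block_uniq (h1 _) (h2 _) le_rfl (kk_mono (Nat.lt_succ_self n))
  refine ⟨kk, fun m => cc (β m), rfl, kk_mono, ?_, fun n => by have := gap n; omega,
    ⟨fun n m a1 a2 => ?_, fun n => ?_⟩, fun n h => ?_⟩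
  · apply le_sInf
    rintro d ⟨e, rfl, _, he⟩
    obtain ⟨n, hn⟩ := he.nonempty
    have := gap n
    have h3 : 3 ≤ e := by
      have hn' : kk (n + 1) - kk n = e := hn
      omega
    exact_mod_cast h3
  · simp only [hβ]
    rw [block_uniq (h1 m) (h2 m) a1 a2]
  · simp only [hβ]
    exact cc_rec _ n (h1 _) (h2 _)
  · apply (inv (β n)).1 (β n) (by have := kk_ge (β n + 1); omega)
    exact (ZMod.intCast_zmod_eq_zero_iff_dvd _ 29).2 (by exact_mod_cast h)

end Pool.Agent.Results.MP_3fd052_nt.Counter
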